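import Pool.Agent.R293.TG.SitEx
import Pool.Agent.R293.TG.Final

/-!
# MP_8a69f9_an: `B(H)` is not a full twisted groupoid C*-algebra

For every infinite-dimensional Hilbert space `H`, the C*-algebra `B(H)` is not isomorphic to the
full C*-algebra `C*(G, Σ)` of any twist `Σ` over any locally compact Hausdorff étale groupoid `G`.

The groupoids and twists are those of `Pool.Agent.W657.TG` (`TopGpd`, `Twist`), the elements of
`C_c(G, Σ)` are the functions `f : Σ → ℂ` with `Twist.IsSection`, and `conv`, `invo` are the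
twisted convolution and the involution of `C_c(G, Σ)`.
-/

set_option autoImplicit false

namespace Pool.Agent.Results.MP_8a69f9_an.NotFullTwisted

open Pool.Agent.W657.TG Pool.Agent.R293.TG

universe u

variable {X G S : Type u} [TopologicalSpace X] [TopologicalSpace G] [TopologicalSpace S]
  {𝒢 : TopGpd X G}

/-- The set of the norms `‖π(f)‖`, over all `*`-representations `π` of `C_c(G, Σ)` on Hilbert
spaces. Its supremum is the universal norm of `f`. -/
def repNorms (tw : Twist 𝒢 S) (f : S → ℂ) : Set ℝ :=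
  {r | ∃ (K : Type u) (_ : NormedAddCommGroup K) (_ : InnerProductSpace ℂ K)
    (_ : CompleteSpace K) (π : (S → ℂ) → (K →L[ℂ] K)), IsStarHom tw π ∧ r = ‖π f‖}

/-- The map `j` exhibits the C*-algebra `A` as the full twisted groupoid C*-algebra `C*(G, Σ)`, that
is, as the completion of the `*`-algebra `C_c(G, Σ)` in the universal norm. -/
structure IsFull (tw : Twist 𝒢 S) (A : Type u) [NonUnitalCStarAlgebra A] (j : (S → ℂ) → A) :
    Prop where
  /-- `j` is a `*`-homomorphism on `C_c(G, Σ)` -/
  hom : IsStarHom tw j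
  /-- the image of `C_c(G, Σ)` is dense -/
  dense : closure (j '' {f | tw.IsSection f}) = Set.univ
  /-- the norm of `j f` is the universal norm of `f` -/
  norm : ∀ f, tw.IsSection f → IsLUB (repNorms tw f) ‖j f‖

/-- If `H` is an infinite-dimensional Hilbert space and `A` is the full C*-algebra of a twist over a
locally compact Hausdorff étale groupoid, then `A` and `B(H)` are not isomorphic. -/
theorem result [T2Space G] [LocallyCompactSpace G] [T2Space S] [LocallyCompactSpace S]
    (h𝒢 : 𝒢.Etale) (tw : Twist 𝒢 S) (A : Type u) [NonUnitalCStarAlgebra A] (j : (S → ℂ) → A)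
    (hj : IsFull tw A j) (H : Type u) [NormedAddCommGroup H] [InnerProductSpace ℂ H]
    [CompleteSpace H] (hH : ¬ FiniteDimensional ℂ H) : IsEmpty (A ≃⋆ₐ[ℂ] (H →L[ℂ] H)) := by
  refine ⟨fun φ => ?_⟩
  obtain ⟨w, b, -⟩ := exists_hilbertBasis ℂ H
  have hw : Infinite w := by
    by_contra hfin
    rw [not_infinite_iff_finite] at hfin
    have := Fintype.ofFinite w
    exact hH (Module.Basis.finiteDimensional_of_finite (b.toOrthonormalBasis).toBasis)
  let ψ : A ≃⋆ₐ[ℂ] (l2 w →L[ℂ] l2 w) := φ.trans (b.repr.conjStarAlgEquiv)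
  have hψn : ∀ a, ‖ψ a‖ = ‖a‖ := fun a => NonUnitalStarAlgHom.norm_map ψ ψ.injective a
  have hψc : Continuous ψ := (NonUnitalStarAlgHom.isometry ψ ψ.injective).continuous
  set k : (S → ℂ) → (l2 w →L[ℂ] l2 w) := fun f => ψ (j f) with hk
  have hkh : IsStarHom tw k := by
    refine ⟨fun f g hf hg => ?_, fun c f hf => ?_, fun f g hf hg => ?_, fun f hf => ?_⟩
    · rw [hk]; simp only [hj.hom.add f g hf hg, map_add]
    · rw [hk]; simp only [hj.hom.smul c f hf, map_smul]
    · rw [hk]; simp only [hj.hom.mul f g hf hg, map_mul]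
    · rw [hk]; simp only [hj.hom.star f hf, map_star]
  have hkd : closure (k '' {f | tw.IsSection f}) = Set.univ := by
    have h1 : k '' {f | tw.IsSection f} = ψ '' (j '' {f | tw.IsSection f}) := by
      rw [Set.image_image]
    rw [h1, Set.eq_univ_iff_forall]
    intro b
    obtain ⟨a, rfl⟩ := ψ.surjective b
    have h2 := image_closure_subset_closure_image hψc (s := j '' {f | tw.IsSection f})
    rw [hj.dense] at h2
    exact h2 ⟨a, trivial, rfl⟩
  have hkn : ∀ f, tw.IsSection f → ‖reg tw f‖ ≤ ‖k f‖ := by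
    intro f hf
    rw [hk]
    simp only [hψn]
    exact (hj.norm f hf).1 ⟨l2 G, inferInstance, inferInstance, inferInstance, reg tw,
      reg_isStarHom h𝒢, rfl⟩
  obtain ⟨hX, ⟨s⟩⟩ := exists_sit h𝒢 hkh hkd hkn
  have : T2Space X := TopGpd.t2_units 𝒢
  exact s.false

end Pool.Agent.Results.MP_8a69f9_an.NotFullTwisted
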